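import Pool.Agent.H29.Perf

/-!
# A separated scheme that is not quasi-affine, all of whose perfect complexes are generated by
# the structure sheaf

The scheme is the gluing of `Spec ℤ[s]` and `Spec ℤ[x, 1/x]` along the open subschemes
`Spec ℤ[s, 1/(2s)]` and `Spec ℤ[x, 1/(2x)]`, by `x = 2s`.
-/

open CategoryTheory Limits AlgebraicGeometry

namespace Pool.Agent.Results.MP_7fa3bd_ag.NotQuasiAffine

/-- The derived category of the abelian category of `𝒪_X`-modules is Mathlib's. -/
noncomputable instance (X : Scheme.{0}) : HasDerivedCategory.{1} X.Modules :=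
  HasDerivedCategory.standard _

/-- Bounded complexes of finite free modules. -/
def IsBoundedFree {Y : Scheme.{0}} (F : CochainComplex Y.Modules ℤ) : Prop :=
  (∃ a b : ℤ, ∀ i, i < a ∨ b < i → IsZero (F.X i)) ∧
    ∀ i, ∃ I : Type, Finite I ∧ Nonempty (F.X i ≅ SheafOfModules.free I)

/-- The restriction of a complex of `𝒪_X`-modules to an open subscheme. -/
noncomputable def restrict {X : Scheme.{0}} (V : X.Opens) (K : CochainComplex X.Modules ℤ) :
    CochainComplex V.toScheme.Modules ℤ :=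
  ((Scheme.Modules.restrictFunctor V.ι).mapHomologicalComplex (ComplexShape.up ℤ)).obj K

/-- Perfect complexes: locally, they are quasi-isomorphic (isomorphic in the derived category)
to bounded complexes of finite free modules. -/
def IsPerfect {X : Scheme.{0}} (K : CochainComplex X.Modules ℤ) : Prop :=
  ∀ x : X, ∃ V : X.Opens, x ∈ V ∧ ∃ F : CochainComplex V.toScheme.Modules ℤ,
    IsBoundedFree F ∧ Nonempty (DerivedCategory.Q.obj (restrict V K) ≅ DerivedCategory.Q.obj F)

/-- `D_pf(X)`, as a full subcategory of the derived category of `𝒪_X`-modules. -/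
def Dpf (X : Scheme.{0}) : ObjectProperty (DerivedCategory X.Modules) :=
  fun E => ∃ K : CochainComplex X.Modules ℤ, IsPerfect K ∧ Nonempty (E ≅ DerivedCategory.Q.obj K)

/-- The structure sheaf, as an object of the derived category. -/
noncomputable def structureSheaf (X : Scheme.{0}) : DerivedCategory X.Modules :=
  (DerivedCategory.singleFunctor X.Modules 0).obj (SheafOfModules.unit X.ringCatSheaf)

theorem isNoetherian : AlgebraicGeometry.IsNoetherian Pool.H29.Ex.XX := by
  have h0 : Finite Pool.H29.Ex.cov.I₀ := (inferInstance : Finite Bool)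
  have hB : IsNoetherianRing Pool.H29.Ex.B := IsLocalization.isNoetherianRing
    (Submonoid.powers (Polynomial.X : Polynomial ℤ)) _ inferInstance
  have h1 : IsLocallyNoetherian Pool.H29.Ex.XX := by
    refine (isLocallyNoetherian_iff_openCover Pool.H29.Ex.cov).2 ?_
    intro i
    change Bool at i
    cases i
    · exact (inferInstance : IsLocallyNoetherian Pool.H29.Ex.SW)
    · exact (inferInstance : IsLocallyNoetherian Pool.H29.Ex.SU)
  exact { isCompact_univ := (Scheme.OpenCover.compactSpace Pool.H29.Ex.cov).isCompact_univ }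

theorem result : ∃ X : Scheme.{0}, X.IsSeparated ∧ AlgebraicGeometry.IsNoetherian X ∧
    ¬ X.IsQuasiAffine ∧
    (ObjectProperty.singleton (structureSheaf X)).triangEnvelope = Dpf X := by
  refine ⟨Pool.H29.Ex.XX, Pool.H29.Ex.XX_isSeparated, isNoetherian,
    Pool.H29.Ex.XX_not_isQuasiAffine, le_antisymm ?_ ?_⟩
  · intro E hE
    obtain ⟨K, ⟨e⟩⟩ : ∃ K : CochainComplex Pool.H29.Ex.XX.Modules ℤ,
        Nonempty (DerivedCategory.Q.obj K ≅ E) := ⟨_, ⟨DerivedCategory.Q.objObjPreimageIso E⟩⟩
    refine ⟨K, fun x => ?_, ⟨e.symm⟩⟩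
    obtain ⟨V, hxV, F, hb, hF, ⟨e'⟩⟩ := Pool.H29.exists_of_pa (Pool.H29.pa_of_thick hE x)
    exact ⟨V, hxV, F, ⟨hb, hF⟩, ⟨((Pool.H29.rF V.ι).mapDerivedCategoryFactors.app K).symm ≪≫
      (Pool.H29.rD V.ι).mapIso e ≪≫ e'⟩⟩
  · rintro E ⟨K, hK, ⟨e⟩⟩
    refine Pool.H29.thick_of_two_charts Pool.H29.Ex.iU Pool.H29.Ex.iW Pool.H29.Ex.ff
      Pool.H29.Ex.basicOpen_ff Pool.H29.Ex.covers E ?_
    intro x
    obtain ⟨V, hxV, F, ⟨hb, hF⟩, ⟨e'⟩⟩ := hK x
    refine ⟨V, hxV, ?_⟩
    have h1 := Pool.H29.LG.of_restrict V.ι (E := E)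
      ((Pool.H29.thick_isThick _).iso
        ((Pool.H29.rD V.ι).mapIso e ≪≫
          ((Pool.H29.rF V.ι).mapDerivedCategoryFactors.app K) ≪≫ e').symm
        (Pool.H29.thick_Q_of_free F hb hF))
    rwa [Scheme.Opens.opensRange_ι] at h1

end Pool.Agent.Results.MP_7fa3bd_ag.NotQuasiAffine
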